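import Pool.Agent.Lib_MP_1fe18a_ins.Core

/-!
# The John constant of the disc

`Admissible c`: `c ≥ 1` and every holomorphic `f` on the unit disc with `0 < m ≤ |f'| ≤ M` and
`M / m ≤ c` is injective there. `IsRoot l`: the equation which defines `λ`. The equation has
exactly one positive solution `λ`, it lies between `0.627834` and `0.627835`, and `exp (λ π)` is the
largest admissible value; in particular the extremal ratio itself is admissible.
-/

open Set

namespace Pool.Agent.Results.MP_1fe18a_an.LargestAdmissible

/-- The equation for `λ` has exactly one positive solution `l`, it lies in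
`(0.627834, 0.627835)`, and `exp (l π)` is the greatest admissible value. -/
theorem result : ∃ l : ℝ, 0.627834 < l ∧ l < 0.627835 ∧ Pool.Agent.JohnIns.IsRoot l ∧
    (∀ l' : ℝ, 0 < l' → Pool.Agent.JohnIns.IsRoot l' → l' = l) ∧
    IsGreatest {c : ℝ | Pool.Agent.JohnIns.Admissible c} (Real.exp (l * Real.pi)) :=
  Pool.Agent.JohnIns.main

end Pool.Agent.Results.MP_1fe18a_an.LargestAdmissible
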